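import Pool.Agent.N295.SR.Stm2
import Pool.Agent.N273.LT.St3

/-!
# Project SR (helper295): sign changes of perturbations of a solution on a bounded interval
-/

set_option autoImplicit false

open MeasureTheory Set Real Filter Topology

namespace Pool.Agent.N755.SR

open Pool.Agent.N273.LT (Alt)
open Pool.Agent.N295.SR (BSol S_LC)

/-- A solution with a zero to the left of a critical point, positive version. -/
lemma rig_pos {U U' g : ℝ → ℝ} {Q : ℝ} (hU : ∀ x, HasDerivAt U (U' x) x)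
    (hU' : ∀ x, HasDerivAt U' (g x * U x) x) (hQ : 0 ≤ Q) {z c : ℝ} (hzc : z ≤ c)
    (hg : ∀ x ∈ Icc z c, -Q ≤ g x) (hδ : (c - z) ^ 2 * Q ≤ 1) (hz : U z = 0) (hc : U' c = 0) :
    ¬ 0 < U c := by
  intro hpos
  have cU : Continuous U := continuous_iff_continuousAt.2 fun x => (hU x).continuousAt
  -- the last zero
  have hcomp : IsCompact (Icc z c ∩ U ⁻¹' {0}) :=
    isCompact_Icc.inter_right (isClosed_singleton.preimage cU)
  obtain ⟨y, ⟨hy, hy0⟩, hymax⟩ := hcomp.exists_isGreatest ⟨z, ⟨le_rfl, hzc⟩, hz⟩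
  have hy0' : U y = 0 := hy0
  have hyc : y < c := lt_of_le_of_ne hy.2 fun h => by rw [h] at hy0'; linarith
  have hUpos : ∀ x ∈ Icc y c, 0 ≤ U x := by
    intro x hx
    by_contra hneg
    push Not at hneg
    have hxy : x ≠ y := fun h => by rw [h, hy0'] at hneg; exact lt_irrefl _ hneg
    have hyx : y < x := lt_of_le_of_ne hx.1 (Ne.symm hxy)
    obtain ⟨t, ht, ht0⟩ := intermediate_value_Icc hx.2 cU.continuousOn
      (show (0 : ℝ) ∈ Icc (U x) (U c) from ⟨hneg.le, hpos.le⟩)
    have := hymax ⟨⟨hy.1.trans (hyx.le.trans ht.1), ht.2⟩, ht0⟩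
    linarith [ht.1]
  obtain ⟨x1, hx1, hmax⟩ := isCompact_Icc.exists_isMaxOn (⟨c, hyc.le, le_rfl⟩ : (Icc y c).Nonempty)
    cU.continuousOn
  set M := U x1 with hM
  have hMx : ∀ x ∈ Icc y c, U x ≤ M := fun x hx => hmax hx
  have hM0 : 0 < M := hpos.trans_le (hMx c ⟨hyc.le, le_rfl⟩)
  -- the derivative
  have hd : ∀ x ∈ Icc y c, U' x ≤ Q * M * (c - x) := by
    intro x hx
    have hmono : MonotoneOn (fun t => U' t + Q * M * t) (Icc y c) := by
      refine monotoneOn_of_deriv_nonneg (convex_Icc y c) ?_ ?_ ?_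
      · exact (Continuous.add (continuous_iff_continuousAt.2 fun x => (hU' x).continuousAt)
          (continuous_const.mul continuous_id)).continuousOn
      · intro t _
        exact ((hU' t).add ((hasDerivAt_id t).const_mul (Q * M))).differentiableAt.differentiableWithinAt
      · intro t ht
        rw [interior_Icc] at ht
        have h1 : HasDerivAt (fun t => U' t + Q * M * t) (g t * U t + Q * M * 1) t :=
          (hU' t).add ((hasDerivAt_id t).const_mul (Q * M))
        rw [h1.deriv]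
        have ht' : t ∈ Icc y c := ⟨ht.1.le, ht.2.le⟩
        have h2 := hg t ⟨hy.1.trans ht'.1, ht'.2⟩
        have h3 := hUpos t ht'
        have h4 := hMx t ht'
        nlinarith
    have := hmono hx ⟨hyc.le, le_rfl⟩ hx.2
    simp only at this
    rw [hc] at this
    linarith
  have hanti : AntitoneOn (fun t => U t + Q * M * (c - t) ^ 2 / 2) (Icc y c) := by
    refine antitoneOn_of_deriv_nonpos (convex_Icc y c) ?_ ?_ ?_
    · exact (Continuous.add cU (by fun_prop)).continuousOn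
    · intro t _
      exact ((hU t).differentiableAt.add (by fun_prop)).differentiableWithinAt
    · intro t ht
      rw [interior_Icc] at ht
      have e : HasDerivAt (fun t : ℝ => Q * M * (c - t) ^ 2 / 2) (-(Q * M * (c - t))) t := by
        have h1 : HasDerivAt (fun t : ℝ => (c - t)) (-1) t := (hasDerivAt_id' t).const_sub c
        have h2 := ((h1.fun_pow 2).const_mul (Q * M)).div_const 2
        refine h2.congr_deriv ?_
        push_cast
        ring
      have h1 : HasDerivAt (fun t => U t + Q * M * (c - t) ^ 2 / 2) (U' t + -(Q * M * (c - t))) t :=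
        (hU t).add e
      rw [h1.deriv]
      have := hd t ⟨ht.1.le, ht.2.le⟩
      linarith
  have h5 := hanti ⟨le_rfl, hyc.le⟩ hx1 hx1.1
  simp only at h5
  rw [hy0', ← hM] at h5
  have h6 : (c - y) ^ 2 ≤ (c - z) ^ 2 := by
    have h7 : 0 ≤ c - y := by linarith
    have h8 : c - y ≤ c - z := by linarith [hy.1]
    exact pow_le_pow_left₀ h7 h8 2
  have h7 : Q * (c - y) ^ 2 ≤ 1 := by
    have := mul_le_mul_of_nonneg_left h6 hQ
    linarith
  have h8 : 0 ≤ Q * M * (c - x1) ^ 2 / 2 := by positivity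
  have h9 : Q * M * (c - y) ^ 2 / 2 ≤ M / 2 := by
    have := mul_le_mul_of_nonneg_left h7 hM0.le
    nlinarith
  linarith

lemma rig_left {U U' g : ℝ → ℝ} {Q : ℝ} (hU : ∀ x, HasDerivAt U (U' x) x)
    (hU' : ∀ x, HasDerivAt U' (g x * U x) x) (hQ : 0 ≤ Q) {z c : ℝ} (hzc : z ≤ c)
    (hg : ∀ x ∈ Icc z c, -Q ≤ g x) (hδ : (c - z) ^ 2 * Q ≤ 1) (hz : U z = 0) (hc : U' c = 0) :
    U c = 0 := by
  have h1 := rig_pos hU hU' hQ hzc hg hδ hz hc
  have h2 := rig_pos (U := fun x => -U x) (U' := fun x => -U' x) (g := g) (fun x => (hU x).neg)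
    (fun x => by
      have := (hU' x).neg
      rwa [← mul_neg] at this) hQ hzc hg hδ (by simp [hz]) (by simp [hc])
  simp only [Left.neg_pos_iff, not_lt] at h2
  linarith [not_lt.1 h1]

lemma rig_right {U U' g : ℝ → ℝ} {Q : ℝ} (hU : ∀ x, HasDerivAt U (U' x) x)
    (hU' : ∀ x, HasDerivAt U' (g x * U x) x) (hQ : 0 ≤ Q) {z c : ℝ} (hzc : c ≤ z)
    (hg : ∀ x ∈ Icc c z, -Q ≤ g x) (hδ : (c - z) ^ 2 * Q ≤ 1) (hz : U z = 0) (hc : U' c = 0) :
    U c = 0 := by
  have h1 := rig_left (U := fun x => U (-x)) (U' := fun x => -U' (-x)) (g := fun x => g (-x)) (Q := Q)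
    (z := -z) (c := -c) (fun x => by
      have h3 := (hU (-x)).comp x (hasDerivAt_neg x)
      rw [mul_neg_one] at h3
      exact h3) (fun x => by
      have h3 := ((hU' (-x)).comp x (hasDerivAt_neg x)).neg
      rw [mul_neg_one, neg_neg] at h3
      exact h3) hQ (neg_le_neg hzc) (fun x hx => hg (-x) ⟨by linarith [hx.2], by linarith [hx.1]⟩)
    (by
      have : (-c - -z) ^ 2 = (c - z) ^ 2 := by ring
      rw [this]; exact hδ) (by simpa using hz) (by simpa using hc)
  simpa using h1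

/-- The scale. -/
noncomputable def GG (s t : ℝ) : ℝ := t + 8 * s * (exp (min t 0) - exp (-max t 0))

lemma GG_cont (s : ℝ) : Continuous (GG s) := by
  unfold GG
  fun_prop

lemma SS_low {a b μ : ℝ} (hab : a ≤ b) (ha : |a| ≤ μ) (hb : |b| ≤ μ) :
    (b - a) * exp (-μ) ≤ (exp (min b 0) - exp (-max b 0)) - (exp (min a 0) - exp (-max a 0)) := by
  have key : ∀ x y : ℝ, x ≤ y → (y - x) * exp x ≤ exp y - exp x := by
    intro x y _
    have h1 : exp y = exp x * exp (y - x) := by rw [← exp_add]; congr 1; ring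
    have h2 := add_one_le_exp (y - x)
    have h3 := exp_pos x
    rw [h1]
    nlinarith
  have hE := exp_pos (-μ)
  rw [abs_le] at ha hb
  rcases le_total 0 a with h0 | h0
  · have hb0 : 0 ≤ b := h0.trans hab
    rw [min_eq_right h0, min_eq_right hb0, max_eq_left h0, max_eq_left hb0]
    have h1 := key (-b) (-a) (by linarith)
    have h2 : exp (-μ) ≤ exp (-b) := exp_le_exp.2 (by linarith [hb.2])
    have h3 := mul_le_mul_of_nonneg_left h2 (sub_nonneg.2 hab)
    linarith
  · rcases le_total 0 b with h1 | h1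
    · rw [min_eq_left h0, min_eq_right h1, max_eq_right h0, max_eq_left h1]
      have h2 := key (-b) 0 (by linarith)
      have h3 := key a 0 h0
      have h4 : exp (-μ) ≤ exp (-b) := exp_le_exp.2 (by linarith [hb.2])
      have h5 : exp (-μ) ≤ exp a := exp_le_exp.2 (by linarith [ha.1])
      have h6 := mul_le_mul_of_nonneg_left h4 h1
      have h7 := mul_le_mul_of_nonneg_left h5 (neg_nonneg.2 h0)
      simp only [exp_zero, neg_zero] at *
      linarith
    · rw [min_eq_left h0, min_eq_left h1, max_eq_right h0, max_eq_right h1]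
      have h2 := key a b hab
      have h5 : exp (-μ) ≤ exp a := exp_le_exp.2 (by linarith [ha.1])
      have h6 := mul_le_mul_of_nonneg_left h5 (sub_nonneg.2 hab)
      linarith

lemma GG_low {s a b μ : ℝ} (hs : 0 ≤ s) (hab : a ≤ b) (ha : |a| ≤ μ) (hb : |b| ≤ μ) :
    (b - a) + 8 * s * ((b - a) * exp (-μ)) ≤ GG s b - GG s a := by
  have h1 := SS_low hab ha hb
  have h2 := mul_le_mul_of_nonneg_left h1 (show 0 ≤ 8 * s by linarith)
  unfold GG
  linarith

lemma GG_sub {s a b : ℝ} (hs : 0 ≤ s) (hab : a ≤ b) : b - a ≤ GG s b - GG s a := by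
  have h1 := GG_low (μ := max |a| |b|) hs hab (le_max_left _ _) (le_max_right _ _)
  have h2 : 0 ≤ 8 * s * ((b - a) * exp (-max |a| |b|)) := by
    have := sub_nonneg.2 hab
    positivity
  linarith

lemma GG_mono {s a b : ℝ} (hs : 0 ≤ s) (hab : a ≤ b) : GG s a ≤ GG s b := by
  have := GG_sub hs hab
  linarith

lemma GG_top {s K : ℝ} (hs : 0 ≤ s) (hK : 0 < K) : GG s K - GG s (-K) ≤ 2 * K + 16 * s := by
  unfold GG
  rw [min_eq_right hK.le, max_eq_left hK.le, min_eq_left (by linarith : -K ≤ 0),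
    max_eq_right (by linarith : -K ≤ 0)]
  simp only [exp_zero, neg_zero]
  have := exp_pos (-K)
  nlinarith

/-- Rigidity. -/
lemma rig {D : ℝ} {q : ℝ → ℝ} {ν : ℝ} {U U' : ℝ → ℝ} (h : BSol D q ν U U') {z c : ℝ}
    (hzc : |GG (√D) z - GG (√D) c| ≤ 1) (hz : U z = 0) (hc : U' c = 0) : ∀ x, U x = 0 := by
  have hs : 0 ≤ √D := Real.sqrt_nonneg D
  have hsq : √D ^ 2 = D := Real.sq_sqrt h.hD
  have hν : 0 ≤ ν := by rcases h.hν with h1 | h1 <;> linarith
  rw [abs_le] at hzc
  set μ := max |z| |c| with hμ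
  -- the bound for the potential
  have hQ0 : 0 ≤ D * exp (2 - 2 * μ) := mul_nonneg h.hD (exp_pos _).le
  have hcrit : ∀ a b : ℝ, a ≤ b → |a| ≤ μ → |b| ≤ μ → (μ = |a| ∨ μ = |b|) → GG (√D) b - GG (√D) a ≤ 1 →
      (∀ x ∈ Icc a b, -(D * exp (2 - 2 * μ)) ≤ ν - q x) ∧ (b - a) ^ 2 * (D * exp (2 - 2 * μ)) ≤ 1 := by
    intro a b hab ha hb hor hG
    have h1 := GG_low hs hab ha hb
    have h0 := sub_nonneg.2 hab
    have h2 : 0 ≤ 8 * √D * ((b - a) * exp (-μ)) := by positivity
    constructor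
    · intro x hx
      have h3 : μ - 1 ≤ |x| := by
        rcases hor with h4 | h4
        · rw [h4]
          have := abs_sub_abs_le_abs_sub a x
          have h5 : |a - x| ≤ 1 := by
            rw [abs_le]; constructor <;> linarith [hx.1, hx.2]
          linarith
        · rw [h4]
          have := abs_sub_abs_le_abs_sub b x
          have h5 : |b - x| ≤ 1 := by
            rw [abs_le]; constructor <;> linarith [hx.1, hx.2]
          linarith
      have h6 : exp (-2 * |x|) ≤ exp (2 - 2 * μ) := exp_le_exp.2 (by linarith)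
      have h7 := (h.qD x).trans (mul_le_mul_of_nonneg_left h6 h.hD)
      linarith
    · have h3 : √D * ((b - a) * exp (-μ)) ≤ 1 / 8 := by linarith
      have h4 : 0 ≤ √D * ((b - a) * exp (-μ)) := by positivity
      have h5 : (√D * ((b - a) * exp (-μ))) ^ 2 ≤ (1 / 8) ^ 2 := pow_le_pow_left₀ h4 h3 2
      have e1 : (b - a) ^ 2 * (D * exp (2 - 2 * μ)) = (√D * ((b - a) * exp (-μ))) ^ 2 * exp 2 := by
        have e2 : exp (2 - 2 * μ) = exp (-μ) * exp (-μ) * exp 2 := by
          rw [← exp_add, ← exp_add]; congr 1; ring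
        rw [e2]
        calc (b - a) ^ 2 * (D * (exp (-μ) * exp (-μ) * exp 2)) =
            D * ((b - a) ^ 2 * (exp (-μ) * exp (-μ) * exp 2)) := by ring
          _ = √D ^ 2 * ((b - a) ^ 2 * (exp (-μ) * exp (-μ) * exp 2)) := by rw [hsq]
          _ = _ := by ring
      have h6 : exp 2 ≤ 9 := by
        have : exp 2 = exp 1 * exp 1 := by rw [← exp_add]; norm_num
        rw [this]
        have := exp_one_lt_d9
        have := exp_pos 1
        nlinarith
      rw [e1]
      have h7 := exp_pos (2 : ℝ)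
      calc (√D * ((b - a) * exp (-μ))) ^ 2 * exp 2 ≤ (1 / 8) ^ 2 * 9 :=
            mul_le_mul h5 h6 h7.le (by norm_num)
        _ ≤ 1 := by norm_num
  have hUc : U c = 0 := by
    rcases le_total z c with hle | hle
    · obtain ⟨h1, h2⟩ := hcrit z c hle (le_max_left _ _) (le_max_right _ _) (by
        rcases max_choice |z| |c| with h3 | h3
        · exact Or.inl h3
        · exact Or.inr h3) (by linarith [hzc.1])
      exact rig_left h.d1 h.d2 hQ0 hle h1 h2 hz hc
    · obtain ⟨h1, h2⟩ := hcrit c z hle (le_max_right _ _) (le_max_left _ _) (by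
        rcases max_choice |z| |c| with h3 | h3
        · exact Or.inr h3
        · exact Or.inl h3) (by linarith [hzc.2])
      exact rig_right h.d1 h.d2 hQ0 hle h1 (by
        have : (c - z) ^ 2 = (z - c) ^ 2 := by ring
        rw [this]; exact h2) hz hc
  -- uniqueness
  have hb : ∀ x, |ν - q x| ≤ ν + D := by
    intro x
    have h1 := h.q0 x
    have h2 : exp (-2 * |x|) ≤ 1 := exp_le_one_iff.2 (by linarith [abs_nonneg x])
    have h3 := (h.qD x).trans (mul_le_of_le_one_right h.hD h2)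
    rw [abs_le]
    constructor <;> linarith [h.hD]
  have hB : 0 ≤ ν + D := by linarith [h.hD]
  set ℓ := 1 / (2 * √(ν + D + 1)) with hℓ
  have hr : 0 < √(ν + D + 1) := Real.sqrt_pos.2 (by linarith)
  have hr2 : √(ν + D + 1) ^ 2 = ν + D + 1 := Real.sq_sqrt (by linarith)
  have hℓ0 : 0 < ℓ := by positivity
  refine Pool.Agent.N273.LT.rigid (Q := ν + D) (ℓ := ℓ) hℓ0 h.d1 h.d2 hb ?_ (z := c) (c := c)
    (by rw [sub_self, abs_zero]; exact hℓ0.le) hUc hc
  rw [hℓ, div_pow, mul_pow, hr2, one_pow, div_mul_eq_mul_div, one_mul, div_le_div_iff₀ (by linarith) (by norm_num)]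
  linarith

/-- Spacing. -/
lemma spacing {s K : ℝ} (hs : 0 ≤ s) (hK : 0 < K) {v : ℝ → ℝ}
    (h2 : ∀ a b : ℝ, a ∈ Icc (-K) K → b ∈ Icc (-K) K → a ≤ b → GG s b - GG s a ≤ 1 →
      ¬ Alt v (Icc a b) 2) {n : ℕ} (h : Alt v (Icc (-K) K) n) :
    (n : ℝ) ≤ 1 + 2 * (16 * s + 2 * K) := by
  obtain ⟨t, ht1, ht2, ht3⟩ := h
  have hgap : ∀ i, i + 2 ≤ n → 1 < GG s (t (i + 2)) - GG s (t i) := by
    intro i hi
    by_contra hcon
    push Not at hcon
    have h3 := ht1 i (by omega)
    have h4 := ht1 (i + 1) (by omega)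
    refine h2 (t i) (t (i + 2)) (ht2 i (by omega)) (ht2 (i + 2) hi) (h3.trans h4).le hcon
      ⟨fun j => t (i + j), fun j hj => ht1 (i + j) (by omega),
      fun j hj => ?_, fun j hj => ht3 (i + j) (by omega)⟩
    have h5 : j = 0 ∨ j = 1 ∨ j = 2 := by omega
    rcases h5 with rfl | rfl | rfl
    · exact ⟨le_rfl, (h3.trans h4).le⟩
    · exact ⟨h3.le, h4.le⟩
    · exact ⟨(h3.trans h4).le, le_rfl⟩
  have hj : ∀ j : ℕ, 2 * j ≤ n → (j : ℝ) ≤ GG s (t (2 * j)) - GG s (t 0) := by
    intro j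
    induction j with
    | zero => intro _; simp
    | succ j ih =>
      intro hj
      have h3 := ih (by omega)
      have h4 := hgap (2 * j) (by omega)
      rw [show 2 * (j + 1) = 2 * j + 2 by ring]
      push_cast
      linarith
  have h3 := hj (n / 2) (by omega)
  have h4 : (n : ℝ) ≤ 2 * ((n / 2 : ℕ) : ℝ) + 1 := by
    have : n ≤ 2 * (n / 2) + 1 := by omega
    exact_mod_cast this
  have h5 := GG_mono hs (ht2 0 (by omega)).1
  have h6 := GG_mono hs (ht2 (2 * (n / 2)) (by omega)).2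
  have h7 := GG_top hs hK
  linarith

/-- **LC** -/
theorem LC : S_LC := by
  intro D K q ν U U' hK h hne
  have hs : 0 ≤ √D := Real.sqrt_nonneg D
  have cU : Continuous U := continuous_iff_continuousAt.2 fun x => (h.d1 x).continuousAt
  have cU' : Continuous U' := continuous_iff_continuousAt.2 fun x => (h.d2 x).continuousAt
  have cG := GG_cont (√D)
  set P : Set (ℝ × ℝ) := (Icc (-K) K ×ˢ Icc (-K) K) ∩
    (fun p : ℝ × ℝ => |GG (√D) p.1 - GG (√D) p.2|) ⁻¹' Iic 1 with hP
  have hPc : IsCompact P := (isCompact_Icc.prod isCompact_Icc).inter_right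
    (isClosed_Iic.preimage (by fun_prop))
  have hPne : P.Nonempty := ⟨(0, 0), ⟨⟨⟨by linarith, hK.le⟩, ⟨by linarith, hK.le⟩⟩, by simp⟩⟩
  have hf : Continuous fun p : ℝ × ℝ => |U p.1| + |U' p.2| := by fun_prop
  obtain ⟨p, hp, hmin⟩ := hPc.exists_isMinOn hPne hf.continuousOn
  have hpos : 0 < |U p.1| + |U' p.2| := by
    by_contra hcon
    push Not at hcon
    have h1 := abs_nonneg (U p.1)
    have h2 := abs_nonneg (U' p.2)
    obtain ⟨x, hx⟩ := hne
    exact hx (rig h hp.2 (abs_nonpos_iff.1 (by linarith)) (abs_nonpos_iff.1 (by linarith)) x)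
  refine ⟨(|U p.1| + |U' p.2|) / 2, by linarith, ?_⟩
  intro v v' hv hvU hvU' n hA
  refine spacing hs hK ?_ hA
  intro a b ha hb hab hG hA2
  obtain ⟨z, c, hz, hc, hz0, hc0⟩ := Pool.Agent.N273.LT.alt_two hv hA2
  have hzK : |z| ≤ K := abs_le.2 ⟨ha.1.trans hz.1, hz.2.trans hb.2⟩
  have hcK : |c| ≤ K := abs_le.2 ⟨ha.1.trans hc.1, hc.2.trans hb.2⟩
  have h1 := hvU z hzK
  have h2 := hvU' c hcK
  rw [hz0, zero_sub, abs_neg] at h1
  rw [hc0, zero_sub, abs_neg] at h2
  have hzc : (z, c) ∈ P := by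
    refine ⟨⟨abs_le.1 hzK, abs_le.1 hcK⟩, ?_⟩
    simp only [mem_preimage, mem_Iic]
    rw [abs_le]
    have g1 := GG_mono hs hz.1
    have g2 := GG_mono hs hz.2
    have g3 := GG_mono hs hc.1
    have g4 := GG_mono hs hc.2
    constructor <;> linarith
  have h3 := hmin hzc
  simp only [mem_ofPred_eq] at h3
  linarith

end Pool.Agent.N755.SR
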